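import Pool.Agent.H97.K2.RTY

/-!
# Existence of regular types relative to a regular function

As `Pool.KA.rty_thm`, where the informations are bounded relative to the information of a regular
function instead of absolutely.
-/

set_option autoImplicit false

namespace Pool.K2S.G

open Finset Real
open Pool.Agent.H49.Ent Pool.Agent.H32.Dense Pool.STK Pool.KA Pool.KA.RTY

/-- The probability that the information of a regular function is large. -/
theorem rg_large {Ω U : Type} [Fintype Ω] {p : Ω → ℝ} (hp : IsLaw p) {g : Ω → U} {h e s : ℝ}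
    (hg : Rg p g h e) :
    Pool.KAF.Pr p {ω | h + e + s < -Real.log (law p g (g ω))} ≤ Real.exp (-s) := by
  classical
  obtain ⟨G, hG⟩ : ∃ G : Finset U, G = (univ.filter (fun ω => p ω ≠ 0)).image g := ⟨_, rfl⟩
  have hcard : (G.card : ℝ) ≤ Real.exp (h + e) := by
    refine le_trans (le_of_eq ?_) hg.1
    rw [hG]
  have h1 : Pool.KAF.Pr p {ω | h + e + s < -Real.log (law p g (g ω))} ≤
      ∑ u ∈ G, (if h + e + s < -Real.log (law p g u) then law p g u else 0) := by
    rw [Pool.KAL.CDF.Pr_eq]
    have h2 : ∀ u ∈ G, (if h + e + s < -Real.log (law p g u) then law p g u else 0) =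
        ∑ ω, if g ω = u then (if h + e + s < -Real.log (law p g (g ω)) then p ω else 0) else 0 := by
      intro u _
      by_cases hu : h + e + s < -Real.log (law p g u)
      · rw [if_pos hu]
        unfold law
        refine Finset.sum_congr rfl fun ω _ => ?_
        by_cases h3 : g ω = u
        · rw [if_pos h3, if_pos h3, h3]
          rw [if_pos]
          exact hu
        · rw [if_neg h3, if_neg h3]
      · rw [if_neg hu]
        symm
        refine Finset.sum_eq_zero fun ω _ => ?_
        by_cases h3 : g ω = u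
        · rw [if_pos h3, h3, if_neg hu]
        · rw [if_neg h3]
    rw [Finset.sum_congr rfl h2, Finset.sum_comm]
    refine Finset.sum_le_sum fun ω _ => ?_
    by_cases h3 : p ω = 0
    · have : (if ω ∈ {ω | h + e + s < -Real.log (law p g (g ω))} then p ω else 0) = 0 := by
        rw [h3]; split_ifs <;> rfl
      refine le_trans (le_of_eq ?_) (Finset.sum_nonneg fun u _ => ?_)
      · rw [h3]; split_ifs <;> rfl
      · rw [h3]; split_ifs <;> exact le_rfl
    · have hmem : g ω ∈ G := by
        rw [hG]
        exact Finset.mem_image.2 ⟨ω, Finset.mem_filter.2 ⟨Finset.mem_univ _, h3⟩, rfl⟩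
      have h4 : ∑ u ∈ G, (if g ω = u then
          (if h + e + s < -Real.log (law p g (g ω)) then p ω else 0) else 0) =
          (if h + e + s < -Real.log (law p g (g ω)) then p ω else 0) := by
        rw [Finset.sum_ite_eq]
        rw [if_pos hmem]
      rw [h4]
      exact le_rfl
  refine h1.trans ?_
  have h2 : ∀ u ∈ G, (if h + e + s < -Real.log (law p g u) then law p g u else 0) ≤
      Real.exp (-(h + e + s)) := by
    intro u hu
    split_ifs with h3
    · rw [hG] at hu
      obtain ⟨ω, hω, rfl⟩ := Finset.mem_image.1 hu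
      have h4 : 0 < p ω := (hp.nonneg ω).lt_of_ne (Ne.symm (Finset.mem_filter.1 hω).2)
      have h5 := law_pos hp.nonneg g h4
      rw [← Real.log_le_iff_le_exp h5]
      linarith
    · exact (Real.exp_pos _).le
  refine (Finset.sum_le_sum h2).trans ?_
  rw [Finset.sum_const, nsmul_eq_mul]
  calc (G.card : ℝ) * Real.exp (-(h + e + s)) ≤ Real.exp (h + e) * Real.exp (-(h + e + s)) :=
        mul_le_mul_of_nonneg_right hcard (Real.exp_pos _).le
    _ = Real.exp (-s) := by
        rw [← Real.exp_add]
        congr 1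
        ring

/-- The information of a function of `g` is at most the information of `g`; the difference is
rarely large. -/
theorem rel_large {Ω S U : Type} [Fintype Ω] {p : Ω → ℝ} (hp : IsLaw p) {g : Ω → U} {f : Ω → S}
    (hd : Det p g f) (x : ℝ) :
    Pool.KAF.Pr p {ω | x < -Real.log (law p g (g ω)) - -Real.log (law p f (f ω))} * x ≤
      H p g - H p f := by
  have hle : ∀ ω, 0 < p ω → law p g (g ω) ≤ law p f (f ω) := by
    intro ω hω
    unfold law
    refine Finset.sum_le_sum fun v _ => ?_
    by_cases h1 : g v = g ω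
    · rw [if_pos h1]
      by_cases h2 : p v = 0
      · rw [h2]; split_ifs <;> exact le_rfl
      · rw [if_pos (hd v ω ((hp.nonneg v).lt_of_ne (Ne.symm h2)) hω h1)]
    · rw [if_neg h1]
      split_ifs
      · exact hp.nonneg v
      · exact le_rfl
  have h1 := Pool.KAL.CDF.markov hp.nonneg
    (fun ω => -Real.log (law p g (g ω)) - -Real.log (law p f (f ω))) (fun ω hω => by
      have h2 := law_pos hp.nonneg g hω
      have h3 := Real.log_le_log h2 (hle ω hω)
      linarith) x
  refine h1.trans (le_of_eq ?_)
  unfold Ex H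
  rw [← Finset.sum_neg_distrib, ← Finset.sum_neg_distrib, ← Finset.sum_sub_distrib]
  exact Finset.sum_congr rfl fun ω _ => by ring

/-- **Regular types, relative to a regular function.** -/
theorem rty_rel (N : ℕ) {B e ζ : ℝ} (hB : 0 < B) (he : 0 < e) (hζ : 0 < ζ) : ∃ M : ℕ, ∀ (J : ℕ),
    1 ≤ J → ∀ (Ω U : Type) (S : Fin N → Type) [Fintype Ω] (p : Ω → ℝ), IsLaw p →
    ∀ (g : Ω → U) (h : ℝ), Rg p g h (B * J) → ∀ f : ∀ i, Ω → S i, (∀ i, Det p g (f i)) →
    (∀ i, H p g - H p (f i) ≤ B * J) →
    ∃ (A : Ω → Fin M) (bad : Fin M), law p A bad ≤ ζ ∧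
      ∀ k ≠ bad, Real.exp (-(e * J)) ≤ law p A k →
        ∀ i, ∃ h, Rg (cond p A k) (f i) h (2 * e * J) := by
  classical
  obtain ⟨s, hs⟩ : ∃ s : ℝ, s = |Real.log (ζ / 2)| := ⟨_, rfl⟩
  have hs0 : 0 ≤ s := by rw [hs]; exact abs_nonneg _
  have hs1 : Real.exp (-s) ≤ ζ / 2 := by
    rw [← Real.le_log_iff_exp_le (by positivity), hs]
    have := neg_abs_le (Real.log (ζ / 2))
    linarith
  obtain ⟨K, hK⟩ := exists_nat_ge ((2 * B + s + 2 * B * N / ζ) / e)
  refine ⟨Fintype.card (Option (Fin N → Fin (K + 1))), ?_⟩
  intro J hJ Ω U S _ p hp g h hg f hd hf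
  have hJr : (1 : ℝ) ≤ J := by exact_mod_cast hJ
  have hJ0 : (0 : ℝ) < J := by linarith
  obtain ⟨E, hE⟩ : ∃ E, E = e * J := ⟨_, rfl⟩
  have hE0 : 0 < E := by rw [hE]; positivity
  obtain ⟨L, hL⟩ : ∃ L, L = 2 * B * N / ζ * J := ⟨_, rfl⟩
  have hL0 : 0 ≤ L := by rw [hL]; positivity
  obtain ⟨lo, hlo⟩ : ∃ lo, lo = h - B * J - L := ⟨_, rfl⟩
  obtain ⟨top, htop⟩ : ∃ top, top = h + B * J + s * J := ⟨_, rfl⟩
  have hLK : (top - lo) / E ≤ K := by
    refine le_trans (le_of_eq ?_) hK
    rw [htop, hlo, hL, hE]
    field_simp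
    ring
  let ig : Ω → ℝ := fun ω => -Real.log (law p g (g ω))
  let ι : Ω → Fin N → ℝ := fun ω i => -Real.log (law p (f i) (f i ω))
  let ty : Ω → Fin N → Fin (K + 1) := fun ω i => ⟨min ⌊(ι ω i - lo) / E⌋₊ K, by omega⟩
  let A₀ : Ω → Option (Fin N → Fin (K + 1)) := fun ω =>
    if (∃ i, L < ig ω - ι ω i) ∨ top < ig ω then none else some (ty ω)
  let eqv := Fintype.equivFin (Option (Fin N → Fin (K + 1)))
  refine ⟨fun ω => eqv (A₀ ω), eqv none, ?_, ?_⟩
  · -- the exceptional class
    have h1 : law p (fun ω => eqv (A₀ ω)) (eqv none) ≤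
        (∑ i : Fin N, Pool.KAF.Pr p {ω | L < ig ω - ι ω i}) + Pool.KAF.Pr p {ω | top < ig ω} := by
      have h2 : law p (fun ω => eqv (A₀ ω)) (eqv none) =
          ∑ ω, if (∃ i, L < ig ω - ι ω i) ∨ top < ig ω then p ω else 0 := by
        unfold law
        refine Finset.sum_congr rfl fun ω _ => ?_
        by_cases h : (∃ i, L < ig ω - ι ω i) ∨ top < ig ω
        · have h3 : A₀ ω = none := if_pos h
          simp only [h3, if_true, if_pos h]
        · have h3 : A₀ ω = some (ty ω) := if_neg h
          rw [if_neg h, if_neg]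
          intro h4
          have h5 := eqv.injective h4
          rw [h3] at h5
          exact Option.some_ne_none _ h5
      rw [h2]
      have h3 : ∀ i : Fin N, Pool.KAF.Pr p {ω | L < ig ω - ι ω i} =
          ∑ ω, if L < ig ω - ι ω i then p ω else 0 := fun i => by
        rw [Pool.KAL.CDF.Pr_eq]
        rfl
      have h3' : Pool.KAF.Pr p {ω | top < ig ω} = ∑ ω, if top < ig ω then p ω else 0 := by
        rw [Pool.KAL.CDF.Pr_eq]
        rfl
      simp_rw [h3]
      rw [h3', Finset.sum_comm, ← Finset.sum_add_distrib]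
      refine Finset.sum_le_sum fun ω _ => ?_
      have h4 : ∀ i ∈ (univ : Finset (Fin N)), 0 ≤ if L < ig ω - ι ω i then p ω else 0 :=
        fun i _ => by
          split_ifs
          · exact hp.nonneg ω
          · exact le_rfl
      have h6 : 0 ≤ if top < ig ω then p ω else 0 := by
        split_ifs
        · exact hp.nonneg ω
        · exact le_rfl
      by_cases h : (∃ i, L < ig ω - ι ω i) ∨ top < ig ω
      · rw [if_pos h]
        rcases h with ⟨i, hi⟩ | h
        · have h5 := Finset.single_le_sum h4 (Finset.mem_univ i)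
          rw [if_pos hi] at h5
          linarith
        · rw [if_pos h]
          have := Finset.sum_nonneg h4
          linarith
      · rw [if_neg h]
        exact add_nonneg (Finset.sum_nonneg h4) h6
    refine h1.trans ?_
    have htop' : Pool.KAF.Pr p {ω | top < ig ω} ≤ ζ / 2 := by
      have h2 := rg_large hp (s := s * J) hg
      rw [← htop] at h2
      refine h2.trans (le_trans (Real.exp_le_exp.2 ?_) hs1)
      have : s * 1 ≤ s * J := mul_le_mul_of_nonneg_left hJr hs0
      linarith
    have hsum : ∑ i : Fin N, Pool.KAF.Pr p {ω | L < ig ω - ι ω i} ≤ ζ / 2 := by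
      rcases Nat.eq_zero_or_pos N with hN | hN
      · subst hN
        rw [Finset.univ_eq_empty, Finset.sum_empty]
        exact (half_pos hζ).le
      · have hNr : (0 : ℝ) < N := by exact_mod_cast hN
        have hL1 : 0 < L := by rw [hL]; positivity
        have h2 : ∀ i : Fin N, Pool.KAF.Pr p {ω | L < ig ω - ι ω i} ≤ ζ / 2 / N := by
          intro i
          have h3 := rel_large hp (hd i) L
          have h4 := h3.trans (hf i)
          rw [le_div_iff₀ hNr]
          have h5 : B * J = ζ / 2 / N * L := by
            rw [hL]; field_simp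
          rw [h5] at h4
          have h6 := le_of_mul_le_mul_right h4 hL1
          rwa [le_div_iff₀ hNr] at h6
        calc ∑ i : Fin N, Pool.KAF.Pr p {ω | L < ig ω - ι ω i} ≤ ∑ _i : Fin N, ζ / 2 / N :=
              Finset.sum_le_sum fun i _ => h2 i
          _ = ζ / 2 := by
              rw [Finset.sum_const, Finset.card_univ, Fintype.card_fin, nsmul_eq_mul]
              field_simp
    linarith
  · intro k hk hlaw i
    obtain ⟨o, rfl⟩ := eqv.surjective k
    have ho : o ≠ none := fun h => hk (by rw [h])
    obtain ⟨v, rfl⟩ := Option.ne_none_iff_exists'.1 ho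
    refine ⟨lo + (v i : ℕ) * E, Rg_mono (core hp (f i) _ hE0.le ?_ ?_) (e := E) ?_⟩
    · rw [hE]; exact hlaw
    · intro ω hω hA
      have h1 := eqv.injective hA
      have h2 : ¬ ((∃ i, L < ig ω - ι ω i) ∨ top < ig ω) := by
        intro h
        have h3 : A₀ ω = none := if_pos h
        rw [h3] at h1
        exact Option.some_ne_none _ h1.symm
      have h3 : A₀ ω = some (ty ω) := if_neg h2
      rw [h3] at h1
      have h4 : ty ω = v := Option.some.inj h1
      push Not at h2
      have hle : law p g (g ω) ≤ law p (f i) (f i ω) := by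
        unfold law
        refine Finset.sum_le_sum fun v _ => ?_
        by_cases h1 : g v = g ω
        · rw [if_pos h1]
          by_cases h2 : p v = 0
          · rw [h2]; split_ifs <;> exact le_rfl
          · rw [if_pos (hd i v ω ((hp.nonneg v).lt_of_ne (Ne.symm h2)) hω h1)]
        · rw [if_neg h1]
          split_ifs
          · exact hp.nonneg v
          · exact le_rfl
      have h5 : ι ω i ≤ top := by
        have h6 := Real.log_le_log (law_pos hp.nonneg g hω) hle
        have h7 : ι ω i ≤ ig ω := by
          show -Real.log (law p (f i) (f i ω)) ≤ -Real.log (law p g (g ω))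
          linarith
        exact h7.trans h2.2
      have h7 : lo ≤ ι ω i := by
        have h8 := h2.1 i
        have h9 : h - B * J ≤ ig ω := by
          have h10 := hg.2 (g ω)
          rw [← Real.log_le_iff_le_exp (law_pos hp.nonneg g hω)] at h10
          show h - B * J ≤ -Real.log (law p g (g ω))
          linarith
        rw [hlo]
        linarith
      have h6 : (v i : ℕ) = min ⌊(ι ω i - lo) / E⌋₊ K := by rw [← h4]
      have h8 : 0 ≤ (ι ω i - lo) / E := div_nonneg (by linarith) hE0.le
      have h9 : ⌊(ι ω i - lo) / E⌋₊ ≤ K := by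
        have h10 : (ι ω i - lo) / E ≤ K :=
          (div_le_div_of_nonneg_right (by linarith) hE0.le).trans hLK
        have h11 : (⌊(ι ω i - lo) / E⌋₊ : ℝ) ≤ K := (Nat.floor_le h8).trans h10
        exact_mod_cast h11
      rw [min_eq_left h9] at h6
      rw [h6]
      have h10 := Nat.floor_le h8
      have h11 := Nat.lt_floor_add_one ((ι ω i - lo) / E)
      rw [le_div_iff₀ hE0] at h10
      rw [div_lt_iff₀ hE0] at h11
      refine ⟨by linarith, ?_⟩
      have h12 : ι ω i ≤ lo + (⌊(ι ω i - lo) / E⌋₊ : ℝ) * E + E := by linarith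
      exact h12
    · rw [hE]
      nlinarith

end Pool.K2S.G
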